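import Pool.Agent.Helper59.CurModel

open Set Finset

namespace Pool.Agent.Results.MP_e014ea_co.CurUnbounded

open Pool.Agent.Helper59.CurT Pool.Agent.Helper59.CurT.Vtx

/-- `U 0, ..., U (n-1)` are open convex subsets of `ℝ^m` whose union is convex and whose nerve is
`Δ`: a nonempty set `σ` of indices is a face of `Δ` iff `⋂ i ∈ σ, U i` is nonempty. -/
def IsConvexUnionRep {n m : ℕ} (Δ : AbstractSimplicialComplex (Fin n))
    (U : Fin n → Set (Fin m → ℝ)) : Prop :=
  (∀ i, IsOpen (U i)) ∧ (∀ i, Convex ℝ (U i)) ∧ Convex ℝ (⋃ i, U i) ∧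
    ∀ σ : Finset (Fin n), σ.Nonempty → (σ ∈ Δ ↔ (⋂ i ∈ σ, U i).Nonempty)

/-- `Δ` is `m`-convex union representable. -/
def IsCUR (m : ℕ) {n : ℕ} (Δ : AbstractSimplicialComplex (Fin n)) : Prop :=
  ∃ U : Fin n → Set (Fin m → ℝ), IsConvexUnionRep Δ U

/-- the least `m` such that `Δ` is `m`-convex union representable (used only when it exists) -/
noncomputable def cur {n : ℕ} (Δ : AbstractSimplicialComplex (Fin n)) : ℕ :=
  sInf {m | IsCUR m Δ}

/-- the largest cardinality of a face of `Δ` is `d + 1` -/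
def HasDim {n : ℕ} (Δ : AbstractSimplicialComplex (Fin n)) (d : ℕ) : Prop :=
  (∃ σ ∈ Δ, σ.card = d + 1) ∧ ∀ σ ∈ Δ, σ.card ≤ d + 1

/-- the nerve of a family of nonempty sets -/
def nerve {n m : ℕ} (U : Fin n → Set (Fin m → ℝ)) (hU : ∀ i, (U i).Nonempty) :
    AbstractSimplicialComplex (Fin n) where
  faces := {σ | σ.Nonempty ∧ (⋂ i ∈ σ, U i).Nonempty}
  isRelLowerSet_faces := by
    rintro σ ⟨h1, x, hx⟩
    refine ⟨h1, fun τ hτ hne => ⟨hne, x, ?_⟩⟩
    simp only [Set.mem_iInter] at hx ⊢
    exact fun i hi => hx i (hτ hi)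
  singleton_mem := by
    intro i
    refine ⟨Finset.singleton_nonempty i, ?_⟩
    simpa using hU i

lemma mem_nerve {n m : ℕ} (U : Fin n → Set (Fin m → ℝ)) (hU : ∀ i, (U i).Nonempty)
    (σ : Finset (Fin n)) (hσ : σ.Nonempty) :
    σ ∈ nerve U hU ↔ (⋂ i ∈ σ, U i).Nonempty :=
  ⟨fun h => h.2, fun h => ⟨hσ, h⟩⟩

/-- `Facts` only depend on the nerve -/
lemma facts_transfer {E E' : Type*} {k r w : ℕ} {P : Fin r → Fin (k + 1) → Bool}
    {U : Vtx k r w → Set E} {W : Vtx k r w → Set E'} (F : Facts P U)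
    (H : ∀ σ : Finset (Vtx k r w), σ.Nonempty →
      ((⋂ v ∈ σ, W v).Nonempty ↔ (⋂ v ∈ σ, U v).Nonempty)) : Facts P W := by
  have H2 : ∀ u v, (W u ∩ W v).Nonempty ↔ (U u ∩ U v).Nonempty := by
    intro u v
    have := H {u, v} (Finset.insert_nonempty _ _)
    simpa only [Finset.set_biInter_insert, Finset.set_biInter_singleton] using this
  have H3 : ∀ u v s, (W u ∩ W v ∩ W s).Nonempty ↔ (U u ∩ U v ∩ U s).Nonempty := by
    intro u v s
    have := H {u, v, s} (Finset.insert_nonempty _ _)
    simpa only [Finset.set_biInter_insert, Finset.set_biInter_singleton, ← Set.inter_assoc]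
      using this
  refine ⟨?_, ?_, ?_, ?_, ?_, ?_, ?_⟩
  · intro i v h
    exact F.link i v ((H2 _ _).1 h)
  · intro i
    rw [Set.disjoint_iff_inter_eq_empty, ← Set.not_nonempty_iff_eq_empty, H2,
      Set.not_nonempty_iff_eq_empty, ← Set.disjoint_iff_inter_eq_empty]
    exact F.AB i
  · intro i
    rw [Set.disjoint_iff_inter_eq_empty, ← Set.not_nonempty_iff_eq_empty, H2,
      Set.not_nonempty_iff_eq_empty, ← Set.disjoint_iff_inter_eq_empty]
    exact F.NN i
  · intro i b; exact (H3 _ _ _).2 (F.mid0 i b)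
  · intro i b; exact (H3 _ _ _).2 (F.mid1 i b)
  · intro i j; exact (H3 _ _ _).2 (F.rod0 i j)
  · intro i j; exact (H3 _ _ _).2 (F.rod1 i j)

lemma exists_unique_rod {k r w : ℕ} (P : Fin r → Fin (k + 1) → Bool) (x : Fin (k + 2) → ℝ)
    {j j' : Fin (k + 1)} (h : x ∈ Fam w P (rod j)) (h' : x ∈ Fam w P (rod j')) : j = j' := by
  by_contra hne
  have h1 := h.1.1
  have h2 := h.2
  have h3 := h'.2
  simp only [Ball, Set.mem_ofPred_eq] at h1 h2 h3
  have h4 : |x j.succ| + |x j'.succ| ≤ nrm x := by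
    unfold nrm
    calc |x j.succ| + |x j'.succ| = ∑ l ∈ ({j, j'} : Finset (Fin (k + 1))), |x l.succ| := by
          rw [Finset.sum_pair hne]
      _ ≤ _ := Finset.sum_le_sum_of_subset_of_nonneg (Finset.subset_univ _)
          (fun _ _ _ => abs_nonneg _)
  have h5 := le_abs_self (x j.succ)
  have h6 := le_abs_self (x j'.succ)
  linarith

lemma card_le_Fam {k r w : ℕ} (hr : 0 < r) (hw : 1 ≤ w) (P : Fin r → Fin (k + 1) → Bool)
    (x : Fin (k + 2) → ℝ) (σ : Finset (Vtx k r w)) (hσ : ∀ v ∈ σ, x ∈ Fam w P v) :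
    σ.card ≤ w + 2 := by
  classical
  -- neutral slabs
  have hneut : ∀ a a' : Fin (r + 1), x ∈ Fam w P (neut a) → x ∈ Fam w P (neut a') → a = a' := by
    intro a a' h h'
    obtain ⟨_, h1, h2⟩ := h
    obtain ⟨_, h3, h4⟩ := h'
    simp only [Set.mem_ofPred_eq] at h1 h2 h3 h4
    have h7 : ((a : ℕ) : ℝ) < (a' : ℕ) + 1 := by linarith
    have h8 : ((a' : ℕ) : ℝ) < (a : ℕ) + 1 := by linarith
    have h7' : (a : ℕ) < (a' : ℕ) + 1 := by exact_mod_cast h7
    have h8' : (a' : ℕ) < (a : ℕ) + 1 := by exact_mod_cast h8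
    exact Fin.ext (by omega)
  obtain ⟨a0, ha0⟩ : ∃ a0, ∀ a, x ∈ Fam w P (neut a) → a = a0 := by
    by_cases h : ∃ a0, x ∈ Fam w P (neut a0)
    · obtain ⟨a0, h0⟩ := h
      exact ⟨a0, fun a ha => hneut a a0 ha h0⟩
    · push Not at h
      exact ⟨0, fun a ha => absurd ha (h a)⟩
  by_cases hpad : -1 < x 0 ∧ x 0 < 1
  · -- only a rod, the neutral slab and the pads
    have hM : ∀ i, x ∉ Fam w P (cM i) := by
      rintro i ⟨⟨_, h1, _⟩, _⟩
      simp only [Set.mem_ofPred_eq] at h1
      have h0 : (0:ℝ) ≤ ((i : ℕ) : ℝ) := Nat.cast_nonneg _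
      linarith [hpad.2]
    have hS : ∀ b i, x ∉ Fam w P (side b i) := by
      rintro b i ⟨⟨_, h1, _⟩, _⟩
      simp only [Set.mem_ofPred_eq] at h1
      have h0 : (0:ℝ) ≤ ((i : ℕ) : ℝ) := Nat.cast_nonneg _
      linarith [hpad.2]
    obtain ⟨j0, hj0⟩ : ∃ j0, ∀ j, x ∈ Fam w P (rod j) → j = j0 := by
      by_cases h : ∃ j0, x ∈ Fam w P (rod j0)
      · obtain ⟨j0, h0⟩ := h
        exact ⟨j0, fun j hj => exists_unique_rod P x hj h0⟩
      · push Not at h
        exact ⟨0, fun a ha => absurd ha (h a)⟩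
    have hsub : σ ⊆ insert (rod j0) (insert (neut a0) (Finset.univ.image pad)) := by
      intro v hv
      have hx := hσ v hv
      cases v with
      | rod j => rw [hj0 j hx]; simp
      | neut a => rw [ha0 a hx]; simp
      | cM i => exact absurd hx (hM i)
      | side b i => exact absurd hx (hS b i)
      | pad s => simp
    calc σ.card ≤ _ := Finset.card_le_card hsub
      _ ≤ (insert (neut a0) (Finset.univ.image pad)).card + 1 := Finset.card_insert_le _ _
      _ ≤ ((Finset.univ.image pad).card + 1) + 1 := by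
          gcongr
          exact Finset.card_insert_le _ _
      _ ≤ w + 2 := by
          have : (Finset.univ.image (pad : Fin w → Vtx k r w)).card ≤ w := by
            simpa using Finset.card_image_le (s := (Finset.univ : Finset (Fin w)))
              (f := (pad : Fin w → Vtx k r w))
          omega
  · have hnp : ∀ s, x ∉ Fam w P (pad s) := by
      rintro s ⟨_, h1, h2⟩
      simp only [Set.mem_ofPred_eq] at h1 h2
      exact hpad ⟨h1, h2⟩
    -- bead index
    have hbead : ∀ i i' : Fin r, 10 * ((i : ℕ) : ℝ) + 1 < x 0 → x 0 < 10 * ((i : ℕ) : ℝ) + 9 →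
        10 * ((i' : ℕ) : ℝ) + 1 < x 0 → x 0 < 10 * ((i' : ℕ) : ℝ) + 9 → i = i' := by
      intro i i' h1 h2 h3 h4
      have h7 : ((i : ℕ) : ℝ) < (i' : ℕ) + 1 := by linarith
      have h8 : ((i' : ℕ) : ℝ) < (i : ℕ) + 1 := by linarith
      have h7' : (i : ℕ) < (i' : ℕ) + 1 := by exact_mod_cast h7
      have h8' : (i' : ℕ) < (i : ℕ) + 1 := by exact_mod_cast h8
      exact Fin.ext (by omega)
    obtain ⟨i0, hi0⟩ : ∃ i0 : Fin r, ∀ i : Fin r, 10 * ((i : ℕ) : ℝ) + 1 < x 0 →
        x 0 < 10 * ((i : ℕ) : ℝ) + 9 → i = i0 := by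
      by_cases h : ∃ i0 : Fin r, 10 * ((i0 : ℕ) : ℝ) + 1 < x 0 ∧ x 0 < 10 * ((i0 : ℕ) : ℝ) + 9
      · obtain ⟨i0, h1, h2⟩ := h
        exact ⟨i0, fun i h3 h4 => hbead i i0 h3 h4 h1 h2⟩
      · push Not at h
        exact ⟨⟨0, hr⟩, fun i h1 h2 => absurd h2 (not_lt.2 (h i h1))⟩
    have hMi : ∀ i, x ∈ Fam w P (cM i) → i = i0 := fun i hx => hi0 i hx.1.2.1 hx.1.2.2
    have hSi : ∀ b i, x ∈ Fam w P (side b i) → i = i0 := fun b i hx => hi0 i hx.1.2.1 hx.1.2.2
    obtain ⟨b0, hb0⟩ : ∃ b0, ∀ b, x ∈ Fam w P (side b i0) → b = b0 := by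
      by_cases h : x ∈ Fam w P (side true i0)
      · refine ⟨true, fun b hb => ?_⟩
        cases b with
        | true => rfl
        | false =>
          exfalso
          have h1 := h.2
          have h2 := hb.2
          simp [sgn] at h1 h2
          linarith
      · refine ⟨false, fun b hb => ?_⟩
        cases b with
        | false => rfl
        | true => exact absurd hb h
    by_cases hrod : ∃ j0, x ∈ Fam w P (rod j0)
    · obtain ⟨j0, hj0⟩ := hrod
      have hM : ∀ i, x ∉ Fam w P (cM i) := by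
        intro i hx
        have h3 := hx.2.1
        have h4 := hx.2.2
        have hb := hj0.1.1
        have h5 := hj0.2
        simp only [Set.mem_ofPred_eq, Ball] at h3 h4 h5 hb
        have h6 := rod_dlt (P i) x j0
        have h7 : sgn (P i j0) * dlt (P i) x < 1 / 2 := by
          cases hPj : P i j0
          · simp only [sgn, Bool.false_eq_true, if_false]; linarith
          · simp only [sgn, if_true]; linarith
        linarith
      have hsub : σ ⊆ {rod j0, neut a0, side b0 i0} := by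
        intro v hv
        have hx := hσ v hv
        cases v with
        | rod j => rw [exists_unique_rod P x hx hj0]; simp
        | neut a => rw [ha0 a hx]; simp
        | cM i => exact absurd hx (hM i)
        | side b i =>
          obtain rfl := hSi b i hx
          rw [hb0 b hx]; simp
        | pad s => exact absurd hx (hnp s)
      calc σ.card ≤ _ := Finset.card_le_card hsub
        _ ≤ 3 := Finset.card_le_three
        _ ≤ w + 2 := by omega
    · push Not at hrod
      have hsub : σ ⊆ {neut a0, cM i0, side b0 i0} := by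
        intro v hv
        have hx := hσ v hv
        cases v with
        | rod j => exact absurd hx (hrod j)
        | neut a => rw [ha0 a hx]; simp
        | cM i => rw [hMi i hx]; simp
        | side b i =>
          obtain rfl := hSi b i hx
          rw [hb0 b hx]; simp
        | pad s => exact absurd hx (hnp s)
      calc σ.card ≤ _ := Finset.card_le_card hsub
        _ ≤ 3 := Finset.card_le_three
        _ ≤ w + 2 := by omega

/-- the big face -/
lemma big_face {k r w : ℕ} (P : Fin r → Fin (k + 1) → Bool) :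
    ∃ σ : Finset (Vtx k r w), σ.card = w + 2 ∧ ∃ x, ∀ v ∈ σ, x ∈ Fam w P v := by
  classical
  refine ⟨insert (rod 0) (insert (neut 0) (Finset.univ.image pad)), ?_, pt 0 0 (7 / 8), ?_⟩
  · rw [Finset.card_insert_of_notMem (by simp), Finset.card_insert_of_notMem (by simp),
      Finset.card_image_of_injective]
    · simp
    · intro s s' h
      simpa using h
  · have hb : (pt 0 0 (7 / 8) : Fin (k + 2) → ℝ) ∈ Ball k := by
      simp only [Ball, Set.mem_ofPred_eq, nrm_pt]
      rw [abs_of_pos (by norm_num)]; norm_num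
    intro v hv
    simp only [Finset.mem_insert, Finset.mem_image, Finset.mem_univ, true_and] at hv
    rcases hv with rfl | rfl | ⟨s, rfl⟩
    · refine ⟨⟨hb, ?_, ?_⟩, ?_⟩
      all_goals simp only [Set.mem_ofPred_eq, pt_zero, pt_succ, if_true]
      · norm_num
      · positivity
      · norm_num
    · refine ⟨hb, ?_, ?_⟩
      all_goals simp only [Set.mem_ofPred_eq, pt_zero, Fin.val_zero, Nat.cast_zero]
      all_goals norm_num
    · refine ⟨hb, ?_, ?_⟩
      all_goals simp only [Set.mem_ofPred_eq, pt_zero]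
      all_goals norm_num

/-- **Main theorem.** For every `d ≥ 2` there are `d`-dimensional convex union representable
complexes whose convex union representation dimension is larger than any given constant. -/
theorem result (d : ℕ) (hd : 2 ≤ d) (C : ℕ) :
    ∃ (n : ℕ) (Δ : AbstractSimplicialComplex (Fin n)),
      HasDim Δ d ∧ (∃ m, IsCUR m Δ) ∧ C < cur Δ := by
  classical
  obtain ⟨k, hk⟩ := exists_large ((C + 1) + (C + 1) * (C + 1))
  obtain ⟨w, rfl⟩ : ∃ w, d = w + 1 := ⟨d - 1, by omega⟩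
  have hw : 1 ≤ w := by omega
  -- patterns
  let r : ℕ := Fintype.card (Fin k → Bool)
  let eP : (Fin k → Bool) ≃ Fin r := Fintype.equivFin _
  let P : Fin r → Fin (k + 1) → Bool := fun i => Fin.cons true (eP.symm i)
  have hP0 : ∀ i, P i 0 = true := fun i => rfl
  have hPs : ∀ X : Fin k → Bool, ∃ i, ∀ j, P i j.succ = X j := by
    intro X
    refine ⟨eP X, fun j => ?_⟩
    simp [P]
  have hr : 0 < r := Fintype.card_pos
  -- enumeration of the vertices
  let n : ℕ := Fintype.card (Vtx k r w)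
  let e : Vtx k r w ≃ Fin n := Fintype.equivFin _
  let U : Fin n → Set (Fin (k + 2) → ℝ) := fun i => Fam w P (e.symm i)
  have hne : ∀ i, (U i).Nonempty := fun i => nonempty_Fam P hP0 _
  -- intersections over `Fin n` and over `Vtx`
  have hinter : ∀ {E : Type} (W : Fin n → Set E) (σ : Finset (Vtx k r w)),
      (⋂ i ∈ σ.map e.toEmbedding, W i) = ⋂ v ∈ σ, W (e v) := by
    intro E W σ
    ext x
    simp only [Set.mem_iInter, Finset.mem_map, Equiv.coe_toEmbedding]
    constructor
    · intro h v hv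
      exact h (e v) ⟨v, hv, rfl⟩
    · rintro h _ ⟨v, hv, rfl⟩
      exact h v hv
  have hrep : IsConvexUnionRep (nerve U hne) U := by
    refine ⟨fun i => open_Fam P _, fun i => convex_Fam P _, ?_, fun σ hσ => mem_nerve U hne σ hσ⟩
    have h1 : (⋃ i, U i) = ⋃ v, Fam w P v := by
      apply Set.Subset.antisymm
      · exact Set.iUnion_subset fun i => Set.subset_iUnion (fun v => Fam w P v) (e.symm i)
      · apply Set.iUnion_subset
        intro v
        have h2 := Set.subset_iUnion U (e v)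
        simpa [U] using h2
    rw [h1, iUnion_Fam]
    exact convex_Ball.inter (convex_Tm _ _)
  refine ⟨n, nerve U hne, ⟨?_, ?_⟩, ⟨k + 2, U, hrep⟩, ?_⟩
  · obtain ⟨σ, hc, x, hx⟩ := big_face (k := k) (w := w) P
    refine ⟨σ.map e.toEmbedding, ?_, by rw [Finset.card_map, hc]⟩
    have hσ : (σ.map e.toEmbedding).Nonempty := by
      rw [← Finset.card_pos, Finset.card_map, hc]; omega
    rw [mem_nerve U hne _ hσ, hinter]
    refine ⟨x, ?_⟩
    simp only [Set.mem_iInter]
    intro v hv
    simpa [U] using hx v hv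
  · intro σ hσ
    obtain ⟨x, hx⟩ := hσ.2
    simp only [Set.mem_iInter] at hx
    have h1 := card_le_Fam hr hw P x (σ.map e.symm.toEmbedding) (by
      intro v hv
      simp only [Finset.mem_map, Equiv.coe_toEmbedding] at hv
      obtain ⟨i, hi, rfl⟩ := hv
      exact hx i hi)
    rwa [Finset.card_map] at h1
  · -- lower bound
    have hlow : ∀ m, m ≤ C → ¬ IsCUR m (nerve U hne) := by
      rintro m hm ⟨V, hVo, hVc, hVu, hVn⟩
      have hF : Facts P (fun v => V (e v)) := by
        apply facts_transfer (facts_Fam (w := w) P hP0)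
        intro σ hσ
        have h1 := hVn (σ.map e.toEmbedding) (hσ.map)
        rw [mem_nerve U hne _ hσ.map, hinter, hinter] at h1
        rw [← h1]
        simp only [U, Equiv.symm_apply_apply]
      have hVu' : Convex ℝ (⋃ v, V (e v)) := by
        have : (⋃ v, V (e v)) = ⋃ i, V i := e.surjective.iUnion_comp V
        rw [this]; exact hVu
      have h2 := lower_bound P hP0 hPs (fun v => V (e v)) (fun v => hVo _) (fun v => hVc _)
        hVu' hF
      have h3 : ∑ s ∈ Finset.Iic ((m + 1) + (m + 1) * (m + 1)), (8 * (k + 1)).choose s ≤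
          ∑ s ∈ Finset.Iic ((C + 1) + (C + 1) * (C + 1)), (8 * (k + 1)).choose s := by
        apply Finset.sum_le_sum_of_subset
        apply Finset.Iic_subset_Iic.2
        gcongr
      omega
    by_contra hcon
    push Not at hcon
    have hmem : cur (nerve U hne) ∈ {m | IsCUR m (nerve U hne)} :=
      Nat.sInf_mem ⟨k + 2, U, hrep⟩
    exact hlow _ hcon hmem

end Pool.Agent.Results.MP_e014ea_co.CurUnbounded
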